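import Mathlib

/-!
# Exponential growth of the increments of the two twin unit fraction solution counts

`SolA n` and `SolB n` are the sets of solutions of the two equations of `MP_ab2933_nt`.
Solutions are decreasing lists with product `P`. A solution is persistent (`Pers`) if `5` divides
neither `P` nor `P + 1` and `P` is `1` or `2` modulo `5`; then one of the last steps
`x = P + 5`, `y = P + (P ^ 2 + 1) / 5` (first equation) or `y = P + (P ^ 2 - 1) / 5` (second
equation) is possible. At the branch points (`P` is `17` modulo `25` and `35` modulo `41`, every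
ten trivial steps) the three-term step of `IsA.three` is possible; `Cnt` counts the persistent
solutions which extend a given one, `lin` and `expo` are its lower bounds.
-/

set_option autoImplicit false

namespace Pool.Agent.Results.MP_ab2933_nt.IncrementGrowth

open Finset

/-- The solutions `1 < x_1 < ... < x_n` of `∑ 1 / x_j + 1 / (x_1 ⋯ x_n) = 1`. -/
def SolA (n : ℕ) : Set (Fin n → ℤ) :=
  {x | StrictMono x ∧ (∀ j, 1 < x j) ∧ ∑ j, (1 : ℚ) / x j + 1 / ∏ j, (x j : ℚ) = 1}

/-- The solutions `1 < x_1 < ... < x_n` of `∑ 1 / x_j - 1 / (x_1 ⋯ x_n) = 1`. -/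
def SolB (n : ℕ) : Set (Fin n → ℤ) :=
  {x | StrictMono x ∧ (∀ j, 1 < x j) ∧ ∑ j, (1 : ℚ) / x j - 1 / ∏ j, (x j : ℚ) = 1}

/-- A solution as a decreasing list. -/
private def IsA (l : List ℕ) : Prop :=
  l.Pairwise (fun a b => b < a) ∧ (∀ x ∈ l, 1 < x) ∧
    (l.map (fun x : ℕ => (1 : ℚ) / x)).sum + 1 / (l.prod : ℚ) = 1

private theorem IsA.pos {l : List ℕ} (h : IsA l) : 0 < l.prod :=
  List.prod_pos (fun x hx => by have := h.2.1 x hx; omega)

private theorem IsA.le {l : List ℕ} (h : IsA l) : ∀ x ∈ l, x ≤ l.prod :=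
  fun _ hx => Nat.le_of_dvd h.pos (List.dvd_prod hx)

private theorem IsA.cons {l : List ℕ} (h : IsA l) : IsA ((l.prod + 1) :: l) := by
  have hp : (0 : ℚ) < l.prod := by exact_mod_cast h.pos
  refine ⟨?_, ?_, ?_⟩
  · rw [List.pairwise_cons]
    exact ⟨fun x hx => by have := h.le x hx; omega, h.1⟩
  · intro x hx
    rcases List.mem_cons.mp hx with rfl | hx
    · have := h.pos; omega
    · exact h.2.1 x hx
  · have h3 := h.2.2
    simp only [List.map_cons, List.sum_cons, List.prod_cons]
    have e : (l.map (fun x : ℕ => (1 : ℚ) / x)).sum = 1 - 1 / (l.prod : ℚ) := by linarith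
    rw [e, Nat.cast_mul, Nat.cast_add, Nat.cast_one]
    field_simp
    ring

private theorem IsA.three {l : List ℕ} (h : IsA l) {y z : ℕ} (hp : 6 ≤ l.prod)
    (hy : 5 * y = l.prod * (l.prod + 5) + 41)
    (hz : 41 * z = l.prod * (l.prod + 5) * y + 1) : IsA (z :: y :: (l.prod + 5) :: l) := by
  have hp0 : (0 : ℚ) < l.prod := by exact_mod_cast h.pos
  have hxy : l.prod + 5 < y := by nlinarith
  have hyz : y < z := by nlinarith
  have hy0 : (0 : ℚ) < y := by
    have : 0 < y := by omega
    exact_mod_cast this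
  have hz0 : (0 : ℚ) < z := by
    have : 0 < z := by omega
    exact_mod_cast this
  refine ⟨?_, ?_, ?_⟩
  · rw [List.pairwise_cons, List.pairwise_cons, List.pairwise_cons]
    refine ⟨?_, ?_, ?_, h.1⟩
    · intro x hx
      rcases List.mem_cons.mp hx with rfl | hx
      · exact hyz
      rcases List.mem_cons.mp hx with rfl | hx
      · omega
      · have := h.le x hx; omega
    · intro x hx
      rcases List.mem_cons.mp hx with rfl | hx
      · exact hxy
      · have := h.le x hx; omega
    · intro x hx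
      have := h.le x hx; omega
  · intro x hx
    rcases List.mem_cons.mp hx with rfl | hx
    · omega
    rcases List.mem_cons.mp hx with rfl | hx
    · omega
    rcases List.mem_cons.mp hx with rfl | hx
    · omega
    · exact h.2.1 x hx
  · have h3 := h.2.2
    simp only [List.map_cons, List.sum_cons, List.prod_cons]
    have e : (l.map (fun x : ℕ => (1 : ℚ) / x)).sum = 1 - 1 / (l.prod : ℚ) := by linarith
    rw [e, Nat.cast_mul, Nat.cast_mul, Nat.cast_mul, Nat.cast_add, Nat.cast_ofNat]
    have hyq : (5 : ℚ) * y = l.prod * (l.prod + 5) + 41 := by exact_mod_cast hy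
    have hzq : (41 : ℚ) * z = l.prod * (l.prod + 5) * y + 1 := by exact_mod_cast hz
    set p : ℚ := (l.prod : ℚ) with hpdef
    have ey : (y : ℚ) = (p * (p + 5) + 41) / 5 := by linarith
    have ez : (z : ℚ) = (p * (p + 5) * y + 1) / 41 := by linarith
    have h1 : 1 / p - 1 / (p + 5) = 5 / (p * (p + 5)) := by field_simp; ring
    have h2 : 5 / (p * (p + 5)) - 1 / (y : ℚ) = 41 / (p * (p + 5) * y) := by
      field_simp
      linarith
    have h4 : 41 / (p * (p + 5) * y) - 1 / (z : ℚ) = 1 / (z * (y * ((p + 5) * p))) := by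
      field_simp
      linarith
    linarith

private theorem IsA.two {l : List ℕ} (h : IsA l) {y : ℕ} (hp : 6 ≤ l.prod)
    (hy : 5 * y = l.prod * (l.prod + 5) + 1) : IsA (y :: (l.prod + 5) :: l) := by
  have hp0 : (0 : ℚ) < l.prod := by exact_mod_cast h.pos
  have hxy : l.prod + 5 < y := by nlinarith
  have hy0 : (0 : ℚ) < y := by
    have : 0 < y := by omega
    exact_mod_cast this
  refine ⟨?_, ?_, ?_⟩
  · rw [List.pairwise_cons, List.pairwise_cons]
    refine ⟨?_, ?_, h.1⟩
    · intro x hx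
      rcases List.mem_cons.mp hx with rfl | hx
      · exact hxy
      · have := h.le x hx; omega
    · intro x hx
      have := h.le x hx; omega
  · intro x hx
    rcases List.mem_cons.mp hx with rfl | hx
    · omega
    rcases List.mem_cons.mp hx with rfl | hx
    · omega
    · exact h.2.1 x hx
  · have h3 := h.2.2
    simp only [List.map_cons, List.sum_cons, List.prod_cons]
    have e : (l.map (fun x : ℕ => (1 : ℚ) / x)).sum = 1 - 1 / (l.prod : ℚ) := by linarith
    rw [e, Nat.cast_mul, Nat.cast_mul, Nat.cast_add, Nat.cast_ofNat]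
    have hyq : (5 : ℚ) * y = l.prod * (l.prod + 5) + 1 := by exact_mod_cast hy
    set p : ℚ := (l.prod : ℚ) with hpdef
    have h1 : 1 / p - 1 / (p + 5) = 5 / (p * (p + 5)) := by field_simp; ring
    have h2 : 5 / (p * (p + 5)) - 1 / (y : ℚ) = 1 / (y * ((p + 5) * p)) := by
      field_simp
      linarith
    linarith

/-- A solution of the second equation as a decreasing list. -/
private def IsB (l : List ℕ) : Prop :=
  l.Pairwise (fun a b => b < a) ∧ (∀ x ∈ l, 1 < x) ∧
    (l.map (fun x : ℕ => (1 : ℚ) / x)).sum - 1 / (l.prod : ℚ) = 1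

private theorem IsA.twoB {l : List ℕ} (h : IsA l) {y : ℕ} (hp : 6 ≤ l.prod)
    (hy : 5 * y + 1 = l.prod * (l.prod + 5)) : IsB (y :: (l.prod + 5) :: l) := by
  have hp0 : (0 : ℚ) < l.prod := by exact_mod_cast h.pos
  have hxy : l.prod + 5 < y := by nlinarith
  have hy0 : (0 : ℚ) < y := by
    have : 0 < y := by omega
    exact_mod_cast this
  refine ⟨?_, ?_, ?_⟩
  · rw [List.pairwise_cons, List.pairwise_cons]
    refine ⟨?_, ?_, h.1⟩
    · intro x hx
      rcases List.mem_cons.mp hx with rfl | hx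
      · exact hxy
      · have := h.le x hx; omega
    · intro x hx
      have := h.le x hx; omega
  · intro x hx
    rcases List.mem_cons.mp hx with rfl | hx
    · omega
    rcases List.mem_cons.mp hx with rfl | hx
    · omega
    · exact h.2.1 x hx
  · have h3 := h.2.2
    simp only [List.map_cons, List.sum_cons, List.prod_cons]
    have e : (l.map (fun x : ℕ => (1 : ℚ) / x)).sum = 1 - 1 / (l.prod : ℚ) := by linarith
    rw [e, Nat.cast_mul, Nat.cast_mul, Nat.cast_add, Nat.cast_ofNat]
    have hyq : (5 : ℚ) * y + 1 = l.prod * (l.prod + 5) := by exact_mod_cast hy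
    set p : ℚ := (l.prod : ℚ) with hpdef
    have h1 : 1 / p - 1 / (p + 5) = 5 / (p * (p + 5)) := by field_simp; ring
    have h2 : 5 / (p * (p + 5)) - 1 / (y : ℚ) = -(1 / (y * ((p + 5) * p))) := by
      field_simp
      linarith
    linarith

/-- The last term `P - 1`. -/
private theorem IsA.oneB {l : List ℕ} (h : IsA l) (hp : 4 ≤ l.prod)
    (hl : ∀ x ∈ l, 2 * x ≤ l.prod) : IsB ((l.prod - 1) :: l) := by
  refine ⟨List.pairwise_cons.mpr ⟨fun x hx => ?_, h.1⟩, ?_, ?_⟩
  · have := hl x hx; omega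
  · intro x hx
    rcases List.mem_cons.mp hx with rfl | hx
    · omega
    · exact h.2.1 x hx
  · simp only [List.map_cons, List.sum_cons, List.prod_cons]
    have e : (l.map (fun x : ℕ => (1 : ℚ) / x)).sum = 1 - 1 / (l.prod : ℚ) := by
      linarith [h.2.2]
    rw [e]
    have c1 : ((l.prod - 1 : ℕ) : ℚ) = (l.prod : ℚ) - 1 := by
      rw [Nat.cast_sub (by omega)]; norm_num
    rw [Nat.cast_mul, c1]
    have hp : (4 : ℚ) ≤ l.prod := by exact_mod_cast hp
    have hp1 : (l.prod : ℚ) - 1 ≠ 0 := by linarith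
    have hp2 : (l.prod : ℚ) ≠ 0 := by linarith
    field_simp
    ring

/-- The last terms `2 * P - 1` and `2 * P + 1`. -/
private theorem IsA.pairB {l : List ℕ} (h : IsA l) (hp : 4 ≤ l.prod) :
    IsB ((2 * l.prod + 1) :: (2 * l.prod - 1) :: l) := by
  refine ⟨?_, ?_, ?_⟩
  · rw [List.pairwise_cons, List.pairwise_cons]
    refine ⟨?_, ?_, h.1⟩
    · intro x hx
      rcases List.mem_cons.mp hx with rfl | hx
      · omega
      · have := h.le x hx; omega
    · intro x hx
      have := h.le x hx; omega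
  · intro x hx
    rcases List.mem_cons.mp hx with rfl | hx
    · omega
    rcases List.mem_cons.mp hx with rfl | hx
    · omega
    · exact h.2.1 x hx
  · simp only [List.map_cons, List.sum_cons, List.prod_cons]
    have e : (l.map (fun x : ℕ => (1 : ℚ) / x)).sum = 1 - 1 / (l.prod : ℚ) := by
      linarith [h.2.2]
    rw [e]
    have c1 : ((2 * l.prod - 1 : ℕ) : ℚ) = 2 * (l.prod : ℚ) - 1 := by
      rw [Nat.cast_sub (by omega)]; push_cast; ring
    have c2 : ((2 * l.prod + 1 : ℕ) : ℚ) = 2 * (l.prod : ℚ) + 1 := by push_cast; ring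
    rw [Nat.cast_mul, Nat.cast_mul, c1, c2]
    have hp : (4 : ℚ) ≤ l.prod := by exact_mod_cast hp
    have hp1 : 2 * (l.prod : ℚ) - 1 ≠ 0 := by linarith
    have hp3 : 2 * (l.prod : ℚ) + 1 ≠ 0 := by linarith
    have hp2 : (l.prod : ℚ) ≠ 0 := by linarith
    field_simp
    ring

/-! ### Residues modulo powers of `5` and `41` -/

/-- the residue of the product after the branch -/
private def g (r : ℕ) : ℕ :=
  let q := r * (r + 5)
  let y := (q + 41) / 5
  let z := (q * y + 1) / 41
  q * y * z

private def toPt : ℕ → ℕ → Bool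
  | 0, r => r % 25 == 17 && r % 41 == 35
  | n + 1, r => (r % 25 == 17 && r % 41 == 35) || toPt n (r * (r + 1) % 1025)

private theorem branch_mod {p r y z : ℕ} (h : p ≡ r [MOD 1723025]) (h25 : p % 25 = 17)
    (hy : 5 * y = p * (p + 5) + 41) (hz : 41 * z = p * (p + 5) * y + 1) :
    z * (y * ((p + 5) * p)) ≡ g r [MOD 8405] := by
  have hr25 : r % 25 = 17 := by
    have := (h.of_dvd (by norm_num : 25 ∣ 1723025))
    unfold Nat.ModEq at this
    omega
  have hq : p * (p + 5) ≡ r * (r + 5) [MOD 1723025] := Nat.ModEq.mul h (h.add_right 5)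
  set q := r * (r + 5) with hqd
  have hq5 : q % 5 = 4 := by
    have : r % 5 = 2 := by omega
    rw [hqd, Nat.mul_mod, Nat.add_mod, this]
  have hyr : 5 * ((q + 41) / 5) = q + 41 := by omega
  have hyy : y ≡ (q + 41) / 5 [MOD 344605] := by
    apply Nat.ModEq.mul_left_cancel' (c := 5) (by norm_num)
    rw [hy, hyr]
    exact hq.add_right 41
  have hprod : p * (p + 5) * y ≡ q * ((q + 41) / 5) [MOD 344605] :=
    Nat.ModEq.mul (hq.of_dvd (by norm_num)) hyy
  have hzr : 41 * ((q * ((q + 41) / 5) + 1) / 41) = q * ((q + 41) / 5) + 1 := by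
    have h1 := (hprod.add_right 1).of_dvd (by norm_num : 41 ∣ 344605)
    rw [← hz] at h1
    unfold Nat.ModEq at h1
    have h2 : 41 * z % 41 = 0 := Nat.mul_mod_right _ _
    omega
  have hzz : z ≡ (q * ((q + 41) / 5) + 1) / 41 [MOD 8405] := by
    apply Nat.ModEq.mul_left_cancel' (c := 41) (by norm_num)
    rw [hz, hzr]
    exact hprod.add_right 1
  have e1 : z * (y * ((p + 5) * p)) = p * (p + 5) * y * z := by ring
  rw [e1]
  exact Nat.ModEq.mul (hprod.of_dvd (by norm_num)) hzz

private theorem branch_exists' {p : ℕ} (h25 : p % 25 = 17) (h41 : p % 41 = 35) :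
    ∃ y z : ℕ, 5 * y = p * (p + 5) + 41 ∧ 41 * z = p * (p + 5) * y + 1 := by
  have h5 : (p * (p + 5) + 41) % 5 = 0 := by
    have : p % 5 = 2 := by omega
    rw [Nat.add_mod, Nat.mul_mod, Nat.add_mod p 5, this]
  have hq : p * (p + 5) % 41 = 6 := by
    rw [Nat.mul_mod, Nat.add_mod, h41]
  obtain ⟨y, hy⟩ : ∃ y, 5 * y = p * (p + 5) + 41 := ⟨(p * (p + 5) + 41) / 5, by omega⟩
  have hy41 : y % 41 = 34 := by omega
  have h3 : (p * (p + 5) * y + 1) % 41 = 0 := by
    rw [Nat.add_mod, Nat.mul_mod, hq, hy41]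
  exact ⟨y, (p * (p + 5) * y + 1) / 41, hy, by omega⟩

private theorem branch_mod5 {p y z : ℕ} (h25 : p % 25 = 17)
    (hy : 5 * y = p * (p + 5) + 41) (hz : 41 * z = p * (p + 5) * y + 1) :
    z * (y * ((p + 5) * p)) % 5 = 1 := by
  have hq : p * (p + 5) % 25 = 24 := by
    rw [Nat.mul_mod, Nat.add_mod, h25]
  have hy5 : y % 5 = 3 := by omega
  have hq5 : p * (p + 5) % 5 = 4 := by omega
  have hqy : p * (p + 5) * y % 5 = 2 := by rw [Nat.mul_mod, hq5, hy5]
  have hz5 : z % 5 = 3 := by omega
  have e1 : z * (y * ((p + 5) * p)) = p * (p + 5) * y * z := by ring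
  rw [e1, Nat.mul_mod, hqy, hz5]


/-- the product is `1` or `2` modulo `5` -/
private def Five (p : ℕ) : Prop := p % 5 = 1 ∨ p % 5 = 2

/-- At which parity of the length the product is `2` modulo `5`. -/
private def cl (l : List ℕ) : Bool := (l.prod % 5 == 2) == (l.length % 2 == 0)

private theorem five_cons {l : List ℕ} (h : Five l.prod) :
    Five ((l.prod + 1) :: l).prod ∧ cl ((l.prod + 1) :: l) = cl l := by
  unfold cl Five
  rw [List.prod_cons, List.length_cons]
  rcases h with h5 | h5
  · have e : (l.prod + 1) * l.prod % 5 = 2 := by rw [Nat.mul_mod, Nat.add_mod, h5]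
    refine ⟨Or.inr e, ?_⟩
    rw [e, h5]
    rcases Nat.mod_two_eq_zero_or_one l.length with h2 | h2
    · have : (l.length + 1) % 2 = 1 := by omega
      rw [h2, this]; decide
    · have : (l.length + 1) % 2 = 0 := by omega
      rw [h2, this]; decide
  · have e : (l.prod + 1) * l.prod % 5 = 1 := by rw [Nat.mul_mod, Nat.add_mod, h5]
    refine ⟨Or.inl e, ?_⟩
    rw [e, h5]
    rcases Nat.mod_two_eq_zero_or_one l.length with h2 | h2
    · have : (l.length + 1) % 2 = 1 := by omega
      rw [h2, this]; decide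
    · have : (l.length + 1) % 2 = 0 := by omega
      rw [h2, this]; decide

private theorem cl_three {l : List ℕ} {y z : ℕ} (h25 : l.prod % 25 = 17)
    (hy : 5 * y = l.prod * (l.prod + 5) + 41) (hz : 41 * z = l.prod * (l.prod + 5) * y + 1) :
    cl (z :: y :: (l.prod + 5) :: l) = cl l := by
  unfold cl
  simp only [List.prod_cons, List.length_cons]
  have h5 : l.prod % 5 = 2 := by omega
  rw [branch_mod5 h25 hy hz, h5]
  rcases Nat.mod_two_eq_zero_or_one l.length with h2 | h2
  · have : (l.length + 1 + 1 + 1) % 2 = 1 := by omega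
    rw [h2, this]; decide
  · have : (l.length + 1 + 1 + 1) % 2 = 0 := by omega
    rw [h2, this]; decide

/-! ### Extensions of solutions -/

private def ext : ℕ → List ℕ → List ℕ
  | 0, l => l
  | n + 1, l => ext n ((l.prod + 1) :: l)

private theorem ext_suffix (n : ℕ) : ∀ l : List ℕ, l <:+ ext n l := by
  induction n with
  | zero => intro l; exact List.suffix_refl l
  | succ n ih => intro l; exact (List.suffix_cons _ _).trans (ih _)

private theorem ext_length (n : ℕ) : ∀ l : List ℕ, (ext n l).length = n + l.length := by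
  induction n with
  | zero => intro l; simp [ext]
  | succ n ih => intro l; rw [ext, ih]; simp; omega

private theorem ext_inj (n : ℕ) {l l' : List ℕ} (h : l.length = l'.length)
    (he : ext n l = ext n l') : l = l' := by
  have h1 := ext_suffix n l
  have h2 := ext_suffix n l'
  rw [← he] at h2
  exact (List.suffix_of_suffix_length_le h1 h2 h.le).eq_of_length h

private theorem ext_add (m n : ℕ) : ∀ l : List ℕ, ext m (ext n l) = ext (m + n) l := by
  induction n with
  | zero => intro l; rfl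
  | succ n ih => intro l; rw [ext, ih, ← add_assoc, ext]

private theorem toPt_spec : ∀ (n : ℕ) (l : List ℕ) (s : ℕ), l.prod ≡ s [MOD 1025] →
    toPt n s = true → ∃ k ≤ n, (ext k l).prod % 25 = 17 ∧ (ext k l).prod % 41 = 35 := by
  intro n
  induction n with
  | zero =>
    intro l s hs ht
    rw [toPt, Bool.and_eq_true, beq_iff_eq, beq_iff_eq] at ht
    have h25 := (hs.of_dvd (by norm_num : 25 ∣ 1025))
    have h41 := (hs.of_dvd (by norm_num : 41 ∣ 1025))
    unfold Nat.ModEq at h25 h41
    exact ⟨0, le_rfl, by rw [ext]; omega, by rw [ext]; omega⟩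
  | succ n ih =>
    intro l s hs ht
    rw [toPt, Bool.or_eq_true, Bool.and_eq_true, beq_iff_eq, beq_iff_eq] at ht
    rcases ht with ht | ht
    · have h25 := (hs.of_dvd (by norm_num : 25 ∣ 1025))
      have h41 := (hs.of_dvd (by norm_num : 41 ∣ 1025))
      unfold Nat.ModEq at h25 h41
      exact ⟨0, by omega, by rw [ext]; omega, by rw [ext]; omega⟩
    · obtain ⟨k, hk, h⟩ := ih ((l.prod + 1) :: l) (s * (s + 1) % 1025)
        (by
          rw [List.prod_cons, mul_comm]
          exact (Nat.ModEq.mul hs (hs.add_right 1)).trans (Nat.mod_modEq _ _).symm) ht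
      exact ⟨k + 1, by omega, h⟩

/-- persistent solutions -/
private def Pers (l : List ℕ) : Prop := IsA l ∧ Five l.prod ∧ 7 ≤ l.prod

private theorem Pers.keep (n : ℕ) : ∀ {l : List ℕ}, Pers l → Pers (ext n l) ∧ cl (ext n l) = cl l := by
  induction n with
  | zero => intro l h; exact ⟨h, rfl⟩
  | succ n ih =>
    intro l h
    have h1 : Pers ((l.prod + 1) :: l) :=
      ⟨h.1.cons, (five_cons h.2.1).1, by rw [List.prod_cons]; nlinarith [h.2.2]⟩
    exact ⟨(ih h1).1, (ih h1).2.trans (five_cons h.2.1).2⟩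

/-- At least `x` persistent solutions of length `l.length + T` extend `l`. -/
private def Cnt (l : List ℕ) (T : ℕ) (x : ℚ) : Prop :=
  ∃ G : Finset (List ℕ), x ≤ G.card ∧
    ∀ w ∈ G, Pers w ∧ w.length = l.length + T ∧ l <:+ w ∧ cl w = cl l

private theorem Cnt.mono {l : List ℕ} {T : ℕ} {x y : ℚ} (h : Cnt l T y) (hx : x ≤ y) :
    Cnt l T x := by
  obtain ⟨G, g1, g2⟩ := h
  exact ⟨G, hx.trans g1, g2⟩

private theorem Cnt.one {l : List ℕ} (h : Pers l) (T : ℕ) : Cnt l T 1 := by
  refine ⟨{ext T l}, by simp, fun w hw => ?_⟩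
  rw [Finset.mem_singleton.mp hw]
  exact ⟨(h.keep T).1, by rw [ext_length]; omega, ext_suffix T l, (h.keep T).2⟩

private theorem Cnt.late {l : List ℕ} (h : Pers l) {k T : ℕ} (hk : k ≤ T) {x : ℚ}
    (hc : Cnt (ext k l) (T - k) x) : Cnt l T x := by
  obtain ⟨G, g1, g2⟩ := hc
  refine ⟨G, g1, fun w hw => ?_⟩
  obtain ⟨a1, a2, a3, a4⟩ := g2 w hw
  exact ⟨a1, by rw [a2, ext_length]; omega, (ext_suffix k l).trans a3, a4.trans (h.keep k).2⟩

private theorem Cnt.add {l : List ℕ} (h : Pers l) {y z : ℕ}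
    (hcl : cl (z :: y :: (l.prod + 5) :: l) = cl l) {T : ℕ} (hT : 3 ≤ T) {a b : ℚ}
    (ha : Cnt (z :: y :: (l.prod + 5) :: l) (T - 3) a) (hb : Cnt (ext 1 l) (T - 1) b) :
    Cnt l T (a + b) := by
  classical
  obtain ⟨G, g1, g2⟩ := ha
  obtain ⟨H, h1, h2⟩ := hb
  refine ⟨G ∪ H, ?_, ?_⟩
  · rw [card_union_of_disjoint]
    · push_cast
      exact add_le_add g1 h1
    · rw [disjoint_left]
      intro w hw hw'
      have s1 : (l.prod + 5) :: l <:+ w :=
        (show (l.prod + 5) :: l <:+ z :: y :: (l.prod + 5) :: l from ⟨[z, y], rfl⟩).trans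
          (g2 w hw).2.2.1
      have s2 : (l.prod + 1) :: l <:+ w := (h2 w hw').2.2.1
      have := (List.suffix_of_suffix_length_le s1 s2 (by simp)).eq_of_length (by simp)
      have := (List.cons.inj this).1
      omega
  · intro w hw
    rcases mem_union.mp hw with hw | hw
    · obtain ⟨a1, a2, a3, a4⟩ := g2 w hw
      refine ⟨a1, ?_, (show l <:+ z :: y :: (l.prod + 5) :: l from
        ⟨[z, y, l.prod + 5], rfl⟩).trans a3, a4.trans hcl⟩
      rw [a2]; simp only [List.length_cons]; omega
    · obtain ⟨a1, a2, a3, a4⟩ := h2 w hw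
      refine ⟨a1, ?_, (ext_suffix 1 l).trans a3, a4.trans (h.keep 1).2⟩
      rw [a2, ext_length]; omega

/-! ### Branch points -/

private theorem branch_pers {l : List ℕ} (h : Pers l) (h25 : l.prod % 25 = 17)
    (h41 : l.prod % 41 = 35) : ∃ y z : ℕ, 5 * y = l.prod * (l.prod + 5) + 41 ∧
      41 * z = l.prod * (l.prod + 5) * y + 1 ∧ Pers (z :: y :: (l.prod + 5) :: l) ∧
      cl (z :: y :: (l.prod + 5) :: l) = cl l := by
  obtain ⟨y, z, hy, hz⟩ := branch_exists' h25 h41
  have hA := h.1.three (by have := h.2.2; omega) hy hz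
  refine ⟨y, z, hy, hz, ⟨hA, Or.inl ?_, ?_⟩, cl_three h25 hy hz⟩
  · simp only [List.prod_cons]
    exact branch_mod5 h25 hy hz
  · have h1 := hA.le (l.prod + 5) (by simp)
    have := h.2.2
    omega

private def it : ℕ → ℕ → ℕ
  | 0, r => r
  | n + 1, r => it n (r * (r + 1) % 1723025)

private theorem ext_it (n : ℕ) : ∀ (l : List ℕ) (r : ℕ), l.prod ≡ r [MOD 1723025] →
    (ext n l).prod ≡ it n r [MOD 1723025] := by
  induction n with
  | zero => intro l r h; exact h
  | succ n ih =>
    intro l r h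
    exact ih _ _ (by
      rw [List.prod_cons, mul_comm]
      exact (Nat.ModEq.mul h (h.add_right 1)).trans (Nat.mod_modEq _ _).symm)

/-- the digit of the branch point reached after ten steps -/
private def sg (j : ℕ) : ℕ := (it 10 (117 + 1025 * j) - 117) / 1025

private theorem sg_check : ∀ j < 1681, sg j < 1681 ∧ it 10 (117 + 1025 * j) = 117 + 1025 * sg j := by
  decide +kernel

private theorem pt_iff {p : ℕ} (h25 : p % 25 = 17) (h41 : p % 41 = 35) :
    ∃ j < 1681, p ≡ 117 + 1025 * j [MOD 1723025] := by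
  refine ⟨(p % 1723025 - 117) / 1025, ?_, ?_⟩
  · omega
  · unfold Nat.ModEq
    omega

private theorem of_pt {p j : ℕ} (h : p ≡ 117 + 1025 * j [MOD 1723025]) :
    p % 25 = 17 ∧ p % 41 = 35 := by
  have h1 := (h.of_dvd (by norm_num : 25 ∣ 1723025))
  have h2 := (h.of_dvd (by norm_num : 41 ∣ 1723025))
  unfold Nat.ModEq at h1 h2
  constructor <;> omega

private theorem pt_ten {l : List ℕ} {j : ℕ} (hj : j < 1681)
    (h : l.prod ≡ 117 + 1025 * j [MOD 1723025]) :
    (ext 10 l).prod ≡ 117 + 1025 * sg j [MOD 1723025] := by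
  have := ext_it 10 l _ h
  rwa [(sg_check j hj).2] at this

/-- Every branch point gives one more persistent solution every ten steps. -/
private theorem lin (T : ℕ) : ∀ (l : List ℕ) (j : ℕ), Pers l → j < 1681 →
    l.prod ≡ 117 + 1025 * j [MOD 1723025] → Cnt l T ((1 + (T + 7) / 10 : ℕ) : ℚ) := by
  induction T using Nat.strong_induction_on with
  | _ T ih =>
    intro l j h hj hl
    by_cases hT : T < 3
    · have : 1 + (T + 7) / 10 = 1 := by omega
      rw [this, Nat.cast_one]
      exact Cnt.one h T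
    · obtain ⟨h25, h41⟩ := of_pt hl
      obtain ⟨y, z, -, -, hp, hcl⟩ := branch_pers h h25 h41
      have ha : Cnt (z :: y :: (l.prod + 5) :: l) (T - 3) 1 := Cnt.one hp _
      by_cases hT2 : T < 10
      · have hb : Cnt (ext 1 l) (T - 1) 1 := Cnt.one (h.keep 1).1 _
        have : 1 + (T + 7) / 10 = 2 := by omega
        rw [this]
        exact (Cnt.add h hcl (by omega) ha hb).mono (by norm_num)
      · have hb : Cnt (ext 1 l) (T - 1) ((1 + (T - 10 + 7) / 10 : ℕ) : ℚ) := by
          apply Cnt.late (h.keep 1).1 (k := 9) (by omega)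
          rw [ext_add, show T - 1 - 9 = T - 10 by omega]
          exact ih (T - 10) (by omega) _ _ (h.keep 10).1 (sg_check j hj).1 (pt_ten hj hl)
        refine (Cnt.add h hcl (by omega) ha hb).mono (le_of_eq ?_)
        have : 1 + (T + 7) / 10 = 1 + (1 + (T - 10 + 7) / 10) := by omega
        rw [this]; push_cast; ring

/-- Weights (times `50000`) of the branch points `117 + 1025 * (i + 41 * k)` modulo `1723025`,
`i, k < 41`: the digit `k` to the base `2 ^ 17` of the entry `i`. -/
private def B : List ℕ :=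
  [271061323531013374017713470053728638038734447489904550249574655806470663095582823822826556827516486765329787675780118147205202682008474927865902495477200544115019307663419485723491705605254922622450330101146103,
   356666524222461962553726755063316191016407963674400204998423874041122634311484471023471282215110347701027047132064955902084966566072841942003438603348400935595230875869653848013229073772950843754322066548895073,
   398775443307323184317136017752406031437236475577721604093382789112113982704575195110237384900812577689216424152244269256123968331749826609000503814725690296938786095624686538429415421013856626709728555202449409,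
   250177402354530542425797076398216794421486969924556810293526712643014028575869464248865133902531650663526953455068165798857593949394183887901445800260433308579580067401913923509710488260364009384451899449208049,
   321267054496930582087202071521869099941422952670212356852405499451024623934659153549676824677797185526071294114531063244500433678579175239890818590571500921026830264290538535773547190060174884883264304361718057,
   83465039359679178609149098848582849236586559714392163967402951620152586948449294227974978211877984412984163911927337323501436187791102227206404360447765200361600036949539588754291211890301977910451142024155135,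
   412440528029404539766594104929638054050600827577029852102020710409165630677662205257550516569152104270650424601023647249009108913150934650980303183320251947379073848237604515224872070919664889474221779230081321,
   210256417293321547860626856548007935742311526275408451651533504611229794205274428186011411225709760264497717242645656534824985916681035231270361563704801621522208902373436352581082451138540040600718324288647471,
   239331636036279974112629541504711969729341670962852197405405955461117830630759926164657254245258480851383640433546016415944635514700480655178461890538366756553610856288003600672251091511758796596537267197764156,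
   224713738023809908836813746587928219291106245127311013453401436288492506460301488746605526657205274844507047997180711346537322721588373546235849769966430247109727144949864893959645847048130633875284607960246739,
   364423629847267950130835420074009491453667345822552055507788487055543979529968897182975119004842640106413047693354736904544049222728389810040344258668920264426302729921789414986670917316690074578099438939603583,
   307185434098689655495962886472249605975504879677395684068957557709307255591992891615081675449682824733545663065742178065106623301620337572466941251981261252203271176803866712107503512558226931641861332575917461,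
   368537108610605420923581468449186109313461384457002533633693604879185227125124807696312870049801487577887901747145703419259239267731092124458034650490121608373358337205573437232624843387014652042533228893228940,
   318300642522915036077146467484567210447147768613880773336483071631295540626610749825810783959489952327223816523510512430006053081285519616745573555195218390442241554310796541950074834588558623328474847386700586,
   320011971568229275598221468065288050641129813518085891129928586816937128343606853337500625804908903729392421740219294667531144033626998070398736314069661064844709782156997585137744572196691556487506109180994214,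
   242463461555547028387192367999517648861765385420751562517778755705837000353908995314983632845886547434357269411974863799736367938833267488464541412798101499844260571077632077401150033463469380865554677448786217,
   381172395090053082357844519008086078464048600586383451411542015348473938365173053312851622833450969756162721184806729572773660403089752374616597241482019241099914122441369474411418202311001666235223755377780721,
   302815111167142854514432630957441366239638987134011334920098160230092090680737809918903027224713370603177732703918081363637891377395183227425459900648690463920247253408691459735218014152723248647273096106377967,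
   339988470192672716880886061234095201121209118162607000863997438085131923762754126816513700350376544721363504907014536983818404441626905770360022413712906587093821011667727140953376010100374742206729196796199209,
   92920560802697610756604213272976022808839340162850706513106548812511227410222636506038523544418578090001249196705875578312308459766015864052562945216121580442530076464511308341311354536945239995500819838421499,
   370543655584181781947307302784105520149432511139534937573472065117508929205939487306783228296206182442423867072869890056657436119543884546322795877323432271449554722708058304900478834213280939922767251563036969,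
   125974117062640730161883181793027903039389657020334600559733540383604490128655120076801061158829286948772298790623036909103668759992924375766176765481222175301612111587933946029965284490836653250573869763820601,
   197996322769931245350237980112335298045585144886711884670421141451946585836771951899618885306209783799120649974531801848773785444795317100620988212015984329289450680670955759435052586784516237460498196330480224,
   328470686043000484679551648101026051091204302368591848575415195116866402543546417458091492643270483740942180453059577940066395993976438149949277117010798874799338984575218209258905057687751063791011038619713833,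
   181050348806447201336005300128832681432811415249473732519751259873995661954117621728606677998193079255367567911162511075287398942275921606683958333184325970346021331476029158090452531462652643947646334563956683,
   412440448387118804998289629488183542391447452584035035301824001796706494162759765305817507406106895582726667918590610440150069830722581916003262538566486131346351030611182223488685939243220958561477888469844265,
   342014946241126562552042672655111784203789466588166181381996048819359455583182986324230210851892538591932195429031082077313827009529229733414090232804282633225119992206248195510163233481867709380742861617810158,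
   306929181932873617639031128737636611058618719385350642978794829663059579883400577876338106385046088862781955120253873927808439443245427868469041824073956184929303626988986078190456431690135974167934312582259945,
   114732739086261616134526794029704937216492530856355694698177051860109053380807011410333844264426682669089772208183105525594809405524823999325272496261730925474920442674281495203007832182116503345948130440017994,
   112008379101822041856399258752578929562975986258034746203868903832080152880282669302689253333217007745586671150069546633617407046748618808453607513817339946425046131502370340990628511122628725837932566119993201,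
   73386391813005682874799761528123318892058952781014464238426866093633091412457113833108453831091492116439946242965758263149557823770839755365119309930135623689140984685878266942080944722677648454871084502896529,
   231395250987426534706151014667311330725765388134323711831646076945816645766525670496010081354961823468590074151786379467940021339944403599267378028095880583591929596706123090409193840346281553204063166398881935,
   135073791811642434217566894842109370148364057123557443651889407691611649772802795382899084299204154478736731066722509316245907637802171679031293176254793590727100305276913607007343961341883740413327508302620974,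
   276189012521831184293775613316466525430880132393232534294361083273347085450689229513609948599140379175552124455797294172822655058634611684844336577358657270587758234269953465243104877547589914425228217313868011,
   377100215448950967128078560236871106860274484574252883707635165576121629203083285045657839926041320881739523802695136912505405926595297745539338089894271326901000983290075969412538801269630608068142766083482423,
   412441151560964932293043540635422766952684036802559101770716958633614919069009850693727990974111048961962752721294498837664353558833369655154868576431871255406774175117233400855070467859461807110516955948436299,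
   312005432637080602962706700757908313073383834198538582337464441162752535826887410023565960045390674202828188500743582904569233099510511232614656916592082326662272898705359756233276967861282941637908963363582708,
   70291178365555460207417683759646639000590563362711237204799481546750040235662264917235667021726803698589690193018982766792200253674034989615786458794929203216751770730222201843581852759542555487096834406887496,
   280362101853381748373782742975065688565935173156725560675219139241147172146089623072952809565663960835836375054971548034237079793955016902230900907850314562066087814271884814559586802050817237934591341893295065,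
   236030774044925505376335860859680065917983948905292504388949830794306823211716598112898889526765912133555465544406048116806199348808090580895333886592980927722943904159628236187259215806347766104442701083998398,
   93808826058964375596320392108015597800922463474183461509532066434869976949162614977670050635794947890527468224766838899210466078442303973516795584242269400064180800174452495228715819677184994284246842211725303]

private def V (j : ℕ) : ℕ := B.getD (j % 41) 0 / 2 ^ (17 * (j / 41)) % 2 ^ 17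

/-- lower bounds for the weights of the branch points `117 + 1025 * i` modulo `42025` -/
private def M : List ℕ :=
  [39370, 36746, 59205, 40710, 54477, 16638, 53815, 37181, 37157, 15442, 59658, 54192,
   45030, 20449, 21993, 35487, 40965, 22412, 50017, 12168, 46831, 15240, 29783, 52740,
   28109, 54496, 49118, 35427, 21264, 16086, 8791, 20308, 11621, 41911, 60895, 52043,
   26845, 9205, 39897, 26800, 15363]

/-- The weight of a residue `r` modulo `m`: wait for the next branch point. -/
private def wt (f : ℕ → ℕ) (m : ℕ) : ℕ → ℕ → ℕ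
  | 0, r => if r % 25 == 17 && r % 41 == 35 then f ((r % m - 117) / 1025) else 0
  | n + 1, r => if r % 25 == 17 && r % 41 == 35 then f ((r % m - 117) / 1025) * 73 ^ (n + 1)
      else 71 * wt f m n (r * (r + 1) % m)

private def Mf (i : ℕ) : ℕ := M.getD i 0

private theorem check1 : ∀ i < 41, ∀ k < 41, Mf i ≤ V (i + 41 * k) := by decide +kernel

private theorem check2 : ∀ j < 1681, V j ≤ 82217 ∧ ∀ a < 5,
    V j * 73 ^ 16 ≤ 71 ^ 10 * 73 ^ 6 * V (sg j) +
      71 ^ 3 * wt Mf 42025 13 (g (117 + 1025 * j) % 8405 + 8405 * a) := by decide +kernel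

private def lam : ℚ := 73 / 71

private theorem lam_pos : (0 : ℚ) < lam := by unfold lam; norm_num

private theorem one_le_lam : (1 : ℚ) ≤ lam := by unfold lam; norm_num

private theorem small_bound {v T : ℕ} (hv : v ≤ 82217) (h1 : 23 ≤ T) (h2 : T < 39) :
    (v : ℚ) / 50000 * lam ^ T ≤ ((1 + (T + 7) / 10 : ℕ) : ℚ) := by
  have hv' : (v : ℚ) / 50000 ≤ 82217 / 50000 := by
    have : (v : ℚ) ≤ 82217 := by exact_mod_cast hv
    linarith
  by_cases h : T < 33
  · have e : 1 + (T + 7) / 10 = 4 := by omega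
    rw [e]
    have h3 : lam ^ T ≤ lam ^ 32 := pow_le_pow_right₀ one_le_lam (by omega)
    calc (v : ℚ) / 50000 * lam ^ T ≤ 82217 / 50000 * lam ^ 32 :=
          mul_le_mul hv' h3 (pow_nonneg lam_pos.le _) (by norm_num)
      _ ≤ ((4 : ℕ) : ℚ) := by unfold lam; norm_num
  · have e : 1 + (T + 7) / 10 = 5 := by omega
    rw [e]
    have h3 : lam ^ T ≤ lam ^ 38 := pow_le_pow_right₀ one_le_lam (by omega)
    calc (v : ℚ) / 50000 * lam ^ T ≤ 82217 / 50000 * lam ^ 38 :=
          mul_le_mul hv' h3 (pow_nonneg lam_pos.le _) (by norm_num)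
      _ ≤ ((5 : ℕ) : ℚ) := by unfold lam; norm_num

/-- If the weights `f` are lower bounds at the branch points, then `wt f` is one in general. -/
private theorem wt_spec (f : ℕ → ℕ) (m T0 : ℕ)
    (H : ∀ (l : List ℕ) (r T : ℕ), Pers l → l.prod ≡ r [MOD m] → 23 ≤ T → T < T0 →
      r % 25 = 17 → r % 41 = 35 → Cnt l T ((f ((r % m - 117) / 1025) : ℚ) / 50000 * lam ^ T))
    (n : ℕ) : ∀ (l : List ℕ) (r T : ℕ), Pers l → n + 23 ≤ T → T < T0 →
      l.prod ≡ r [MOD m] → Cnt l T ((wt f m n r : ℚ) / (50000 * 73 ^ n) * lam ^ T) := by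
  induction n with
  | zero =>
    intro l r T h hT hT0 hr
    rw [wt]
    split_ifs with hp
    · rw [Bool.and_eq_true, beq_iff_eq, beq_iff_eq] at hp
      refine (H l r T h hr (by omega) hT0 hp.1 hp.2).mono (le_of_eq ?_)
      norm_num
    · exact (Cnt.one h T).mono (by norm_num)
  | succ n ih =>
    intro l r T h hT hT0 hr
    rw [wt]
    split_ifs with hp
    · rw [Bool.and_eq_true, beq_iff_eq, beq_iff_eq] at hp
      refine (H l r T h hr (by omega) hT0 hp.1 hp.2).mono (le_of_eq ?_)
      push_cast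
      field_simp
    · have hr1 : (ext 1 l).prod ≡ r * (r + 1) % m [MOD m] := by
        rw [ext, ext, List.prod_cons, mul_comm]
        exact (Nat.ModEq.mul hr (hr.add_right 1)).trans (Nat.mod_modEq _ _).symm
      have h1 := ih (ext 1 l) (r * (r + 1) % m) (T - 1) (h.keep 1).1 (by omega) (by omega) hr1
      refine (Cnt.late h (k := 1) (by omega) h1).mono (le_of_eq ?_)
      have e : lam ^ T = lam ^ (T - 1) * lam := by
        rw [← pow_succ]; congr 1; omega
      rw [e]
      have e2 : lam = 73 / 71 := rfl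
      push_cast
      rw [pow_succ (73 : ℚ) n]
      nth_rewrite 2 [e2]
      field_simp

/-- The exponential lower bound at branch points. -/
private theorem expo (T : ℕ) : ∀ (l : List ℕ) (j : ℕ), 23 ≤ T → Pers l → j < 1681 →
    l.prod ≡ 117 + 1025 * j [MOD 1723025] → Cnt l T ((V j : ℚ) / 50000 * lam ^ T) := by
  induction T using Nat.strong_induction_on with
  | _ T ih =>
    intro l j hT h hj hl
    obtain ⟨c2, c3⟩ := check2 j hj
    by_cases hT2 : T < 39
    · exact (lin T l j h hj hl).mono (small_bound c2 hT hT2)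
    · obtain ⟨h25, h41⟩ := of_pt hl
      obtain ⟨y, z, hy, hz, hp, hcl⟩ := branch_pers h h25 h41
      have hb : Cnt (ext 1 l) (T - 1) ((V (sg j) : ℚ) / 50000 * lam ^ (T - 10)) := by
        apply Cnt.late (h.keep 1).1 (k := 9) (by omega)
        rw [ext_add, show T - 1 - 9 = T - 10 by omega]
        exact ih (T - 10) (by omega) _ _ (by omega) (h.keep 10).1 (sg_check j hj).1
          (pt_ten hj hl)
      set r := g (117 + 1025 * j) with hr
      set w := z :: y :: (l.prod + 5) :: l with hw
      have hwr : w.prod ≡ r [MOD 8405] := by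
        rw [hw]
        simp only [List.prod_cons]
        exact branch_mod hl h25 hy hz
      obtain ⟨a, ha5, ha⟩ : ∃ a < 5, w.prod ≡ r % 8405 + 8405 * a [MOD 42025] := by
        refine ⟨w.prod % 42025 / 8405, by omega, ?_⟩
        unfold Nat.ModEq at hwr ⊢
        omega
      have hH : ∀ (l : List ℕ) (r T' : ℕ), Pers l → l.prod ≡ r [MOD 42025] → 23 ≤ T' → T' < T →
          r % 25 = 17 → r % 41 = 35 →
          Cnt l T' ((Mf ((r % 42025 - 117) / 1025) : ℚ) / 50000 * lam ^ T') := by
        intro l r T' hl' hlr h1 h2 r25 r41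
        have e1 : l.prod % 1723025 % 42025 = r % 42025 := by
          rw [Nat.mod_mod_of_dvd _ (by norm_num : 42025 ∣ 1723025)]
          exact hlr
        have hlt : l.prod % 1723025 < 1723025 := Nat.mod_lt _ (by norm_num)
        set i := (r % 42025 - 117) / 1025 with hi
        have e2 : r % 42025 = 117 + 1025 * i := by omega
        have hi41 : i < 41 := by omega
        set k := l.prod % 1723025 / 42025 with hk
        have hk41 : k < 41 := by omega
        have e3 : l.prod % 1723025 = 117 + 1025 * (i + 41 * k) := by omega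
        have e4 : l.prod ≡ 117 + 1025 * (i + 41 * k) [MOD 1723025] := by
          rw [← e3]
          exact (Nat.mod_modEq _ _).symm
        refine (ih T' h2 l (i + 41 * k) h1 hl' (by omega) e4).mono ?_
        have hv : (Mf i : ℚ) ≤ V (i + 41 * k) := by exact_mod_cast check1 i hi41 k hk41
        apply mul_le_mul_of_nonneg_right _ (pow_nonneg lam_pos.le _)
        linarith
      have hA := wt_spec Mf 42025 T hH 13 w _ (T - 3) hp (by omega) (by omega) ha
      refine (Cnt.add h hcl (by omega) hA hb).mono ?_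
      have c4 : (V j : ℚ) * 73 ^ 16 ≤ 71 ^ 10 * 73 ^ 6 * V (sg j) +
          71 ^ 3 * wt Mf 42025 13 (r % 8405 + 8405 * a) := by
        exact_mod_cast c3 a ha5
      set q : ℚ := (wt Mf 42025 13 (r % 8405 + 8405 * a) : ℚ) with hq
      have p1 : lam ^ (T - 10) * 73 ^ 10 = lam ^ T * 71 ^ 10 := by
        have : T = (T - 10) + 10 := by omega
        rw [this, Nat.add_sub_cancel, pow_add]
        unfold lam
        rw [div_pow (73 : ℚ) 71 10]
        field_simp
      have p2 : lam ^ (T - 3) * 73 ^ 3 = lam ^ T * 71 ^ 3 := by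
        have : T = (T - 3) + 3 := by omega
        rw [this, Nat.add_sub_cancel, pow_add]
        unfold lam
        rw [div_pow (73 : ℚ) 71 3]
        field_simp
      have p3 : (0 : ℚ) < 50000 * 73 ^ 16 := by norm_num
      rw [← mul_le_mul_iff_left₀ p3]
      have p4 := mul_le_mul_of_nonneg_left c4 (pow_nonneg lam_pos.le T)
      calc (V j : ℚ) / 50000 * lam ^ T * (50000 * 73 ^ 16)
          = lam ^ T * ((V j : ℚ) * 73 ^ 16) := by ring
        _ ≤ lam ^ T * (71 ^ 10 * 73 ^ 6 * V (sg j) + 71 ^ 3 * q) := p4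
        _ = q * (lam ^ T * 71 ^ 3) + V (sg j) * 73 ^ 6 * (lam ^ T * 71 ^ 10) := by ring
        _ = q * (lam ^ (T - 3) * 73 ^ 3) + V (sg j) * 73 ^ 6 * (lam ^ (T - 10) * 73 ^ 10) := by
          rw [p1, p2]
        _ = (q / (50000 * 73 ^ 13) * lam ^ (T - 3) + V (sg j) / 50000 * lam ^ (T - 10)) *
            (50000 * 73 ^ 16) := by ring

/-- Union over several starting solutions. -/
private theorem cnt_union {s T : ℕ} {e : Bool} (F : Finset (List ℕ)) (x : List ℕ → ℚ)
    (hF : ∀ l ∈ F, l.length = s ∧ cl l = e ∧ Cnt l T (x l)) :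
    ∃ G : Finset (List ℕ), ∑ l ∈ F, x l ≤ (G.card : ℚ) ∧
      ∀ w ∈ G, Pers w ∧ w.length = s + T ∧ cl w = e := by
  classical
  have hc : ∀ l ∈ F, ∃ G : Finset (List ℕ), x l ≤ G.card ∧
    ∀ w ∈ G, Pers w ∧ w.length = l.length + T ∧ l <:+ w ∧ cl w = cl l := fun l hl => (hF l hl).2.2
  choose! φ p1 p2 using hc
  refine ⟨F.biUnion φ, ?_, ?_⟩
  · rw [card_biUnion]
    · push_cast
      exact sum_le_sum p1
    · intro l hl l' hl' hne
      rw [Function.onFun, disjoint_left]
      intro w hw hw'
      apply hne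
      have s1 := (p2 l hl w hw).2.2.1
      have s2 := (p2 l' hl' w hw').2.2.1
      have hlen : l.length = l'.length := by rw [(hF l hl).1, (hF l' hl').1]
      exact (List.suffix_of_suffix_length_le s1 s2 hlen.le).eq_of_length hlen
  · intro w hw
    obtain ⟨l, hl, hw⟩ := mem_biUnion.mp hw
    obtain ⟨a1, a2, a3, a4⟩ := p2 l hl w hw
    exact ⟨a1, by rw [a2, (hF l hl).1], a4.trans (hF l hl).2.1⟩

/-! ### Starting solutions -/

private def chk (s : ℕ) (e : Bool) (l : List ℕ) : Bool :=
  decide (l.Pairwise (fun a b => b < a)) && l.all (fun x => decide (1 < x)) &&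
  ((l.map (fun x => l.prod / x)).sum + 1 == l.prod) &&
  (l.prod % 5 == 1 || l.prod % 5 == 2) && decide (7 ≤ l.prod) &&
  (l.length == s) && (cl l == e) && toPt 13 (l.prod % 1025)

private theorem chk_spec {s : ℕ} {e : Bool} {l : List ℕ} (h : chk s e l = true) :
    Pers l ∧ l.length = s ∧ cl l = e ∧ toPt 13 (l.prod % 1025) = true := by
  unfold chk at h
  simp only [Bool.and_eq_true, Bool.or_eq_true, decide_eq_true_eq, beq_iff_eq,
    List.all_eq_true] at h
  obtain ⟨⟨⟨⟨⟨⟨⟨h1, h2⟩, h3⟩, h4⟩, h5⟩, h6⟩, h7⟩, h8⟩ := h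
  refine ⟨⟨⟨h1, h2, ?_⟩, h4, h5⟩, h6, h7, h8⟩
  have hp : (l.prod : ℚ) ≠ 0 := by
    have : l.prod ≠ 0 := by omega
    exact_mod_cast this
  have e1 : (l.map (fun x : ℕ => (1 : ℚ) / x)).sum * l.prod =
      (((l.map (fun x => l.prod / x)).sum : ℕ) : ℚ) := by
    rw [Nat.cast_list_sum, List.map_map, ← List.sum_map_mul_right]
    congr 1
    apply List.map_congr_left
    intro x hx
    have hx1 := h2 x hx
    have hx0 : (x : ℚ) ≠ 0 := by
      have : x ≠ 0 := by omega
      exact_mod_cast this
    rw [Function.comp_apply, Nat.cast_div (List.dvd_prod hx) hx0]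
    field_simp
  have e2 : (((l.map (fun x => l.prod / x)).sum : ℕ) : ℚ) + 1 = l.prod := by exact_mod_cast h3
  have e3 : ((l.map (fun x : ℕ => (1 : ℚ) / x)).sum + 1 / (l.prod : ℚ)) * l.prod = l.prod := by
    rw [add_mul, e1, one_div_mul_cancel hp, e2]
  exact mul_right_cancel₀ hp (e3.trans (one_mul _).symm)

/-- The next denominators, from the numerators `N` of the remainders
`1 - ∑ 1 / x_j = N / ∏ x_j`. -/
private def run : ℕ → List ℕ → List ℕ → List ℕ
  | _, l, [] => l
  | N, l, b :: t => run b ((l.prod + b) / N :: l) t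

/-- The starting solutions of the two classes: the numerators `N` of the remainders, where a
final run of ones is not written. -/
private def data : Bool → List (List ℕ)
  | false =>
  [[1, 1, 5, 19, 797, 5431, 1, 1, 39181, 1, 97, 1], [1, 1, 5, 19, 797, 5431, 1, 1, 39181, 1],
   [1, 1, 5, 19, 797, 5431, 1, 1, 1, 1, 37, 1], [1, 1, 5, 19, 797, 5431, 1],
   [1, 1, 1, 25, 1861, 445, 1, 5, 4382449, 1], [1, 1, 5, 49, 1, 13505, 1, 5, 469, 1, 925, 1],
   [1, 1, 5, 49, 1, 2701, 1, 25, 785789, 1, 5, 1], [1, 1, 5, 49, 1, 365, 1, 1, 3742675344997, 1],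
   [1, 1, 5, 49, 1, 2701, 1, 1, 257, 83201, 1], [1, 1, 5, 49, 1, 1, 2839805, 1, 657397, 1],
   [1, 1, 5, 49, 1, 365, 1, 1, 20677764337, 1], [1, 1, 5, 49, 1, 1, 567961, 1, 43637705, 1],
   [1, 1, 5, 49, 1, 365, 1, 493, 2297, 1], [1, 1, 5, 49, 1, 1, 567961, 1, 223325, 1, 37, 1],
   [1, 1, 5, 49, 1, 1, 567961, 1, 223325, 1], [1, 1, 5, 49, 1, 1, 567961, 1, 4885, 1, 768325, 1],
   [1, 1, 5, 49, 1, 2701, 1, 1, 1, 1, 4517, 1], [1, 1, 5, 49, 1, 1, 567961, 1, 44665, 1],
   [1, 1, 5, 49, 1, 1, 567961, 1, 4885, 1, 1825, 1],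
   [1, 1, 5, 49, 1, 1, 567961, 1, 4885, 1, 421, 1],
   [1, 1, 5, 49, 1, 1, 567961, 1, 4885, 1, 61, 1],
   [1, 1, 5, 49, 1, 365, 1, 1, 210961, 1, 126317, 1], [1, 1, 5, 49, 1, 1, 567961, 1, 4885, 1],
   [1, 1, 5, 49, 1, 1, 2839805, 1, 1, 1, 17, 1], [1, 1, 5, 49, 1, 1, 567961, 1, 977, 1],
   [1, 1, 5, 49, 1, 1, 108385, 1, 322885, 1, 5, 1], [1, 1, 5, 49, 1, 1, 2839805, 1],
   [1, 1, 5, 49, 1, 365, 1, 1, 98017, 1], [1, 1, 5, 49, 1, 185, 1, 1, 1211545, 1, 36745, 1],
   [1, 1, 5, 49, 1, 365, 1, 25, 89, 1], [1, 1, 5, 49, 1, 1, 108385, 1, 64577, 1],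
   [1, 1, 5, 49, 1, 365, 1, 5, 89, 1, 365, 1], [1, 1, 5, 49, 1, 365, 1, 1, 181, 1, 32885, 1],
   [1, 1, 5, 49, 1, 1, 567961, 1, 5, 1], [1, 1, 5, 49, 1, 365, 1, 1, 181, 1, 6577, 1],
   [1, 1, 5, 49, 1, 185, 1, 65, 1, 1, 317, 1], [1, 1, 5, 49, 1, 1, 108385, 1, 5, 1, 21377, 1],
   [1, 1, 5, 49, 1, 185, 1, 65, 1, 1, 5, 1], [1, 1, 1, 1, 1753, 697, 1, 4981717, 1, 1, 5, 1],
   [1, 1, 5, 49, 1, 1, 21677, 1, 1, 39901, 1], [1, 1, 5, 49, 1, 73, 1, 5, 109, 1, 25, 1],
   [1, 1, 1, 1, 1753, 697, 1, 446261, 1, 1, 185, 1],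
   [1, 1, 1, 1, 1753, 697, 1, 1, 554460829985, 1], [1, 1, 5, 49, 1, 1, 21677, 1],
   [1, 1, 1, 1, 1457, 9329, 1, 1, 1, 1, 212721037, 1],
   [1, 1, 1, 1, 1457, 9329, 1, 1, 1, 1, 321817, 1],
   [1, 1, 1, 1, 1753, 697, 1, 1, 19119338965, 1], [1, 1, 1, 1, 1753, 697, 1, 1, 113409865, 1],
   [1, 1, 1, 5, 941, 1, 41, 1, 1, 653750501, 1], [1, 1, 1, 1, 1753, 697, 1, 1, 19553425, 1],
   [1, 1, 1, 1, 1753, 697, 1, 101, 5, 1, 16284025, 1],
   [1, 1, 1, 1, 1753, 697, 1, 101, 5, 1, 651361, 1], [1, 1, 5, 49, 1, 1, 89, 17, 1, 12505, 1],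
   [1, 1, 1, 1, 1753, 697, 1, 481, 1, 1, 265, 1], [1, 1, 1, 1, 1753, 697, 1, 1, 782137, 1],
   [1, 1, 5, 49, 1, 1, 89, 17, 1, 5185, 1], [1, 1, 1, 1, 1753, 697, 1, 481, 1, 1, 17, 1],
   [1, 1, 5, 49, 1, 5, 1, 5, 469, 1, 883057645, 1], [1, 1, 5, 49, 1, 1, 89, 17, 1, 469, 5, 1],
   [1, 1, 5, 49, 1, 1, 1, 478157, 1, 1, 5, 1], [1, 1, 5, 49, 1, 1, 89, 17, 1, 305, 1],
   [1, 1, 5, 49, 1, 1, 89, 17, 1, 1, 45845, 1], [1, 1, 5, 49, 1, 1, 89, 17, 1, 205, 1],
   [1, 1, 1, 1, 1753, 697, 1, 101, 5, 1], [1, 1, 1, 5, 941, 1, 41, 1, 1, 1, 116021, 1],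
   [1, 1, 1, 5, 941, 1, 41, 1, 1, 185, 1], [1, 1, 1, 5, 941, 1, 41, 1, 1, 1, 10897, 1],
   [1, 1, 5, 49, 1, 1, 89, 17, 1, 5, 1], [1, 1, 1, 5, 941, 1, 41, 1, 1, 1, 3077, 1],
   [1, 1, 5, 49, 1, 1, 19, 37, 59, 1, 25, 1], [1, 1, 1, 1, 1753, 697, 1, 1, 725, 1, 29717, 1],
   [1, 1, 1, 1, 1753, 697, 1, 37, 1, 1, 865, 1], [1, 1, 1, 5, 941, 1, 41, 1, 1, 1, 181, 1],
   [1, 1, 1, 5, 941, 1, 41, 1, 1, 1, 17, 1], [1, 1, 5, 49, 1, 5, 1, 5, 469, 1],
   [1, 1, 1, 5, 941, 1, 41, 1], [1, 1, 1, 1, 1753, 697, 1, 1, 5, 1, 25, 1],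
   [1, 1, 5, 49, 1, 1, 1, 1, 874565, 1, 321185, 1], [1, 1, 1, 1, 1753, 697, 1, 1, 1, 1, 7457, 1],
   [1, 1, 5, 49, 1, 1, 1, 1, 51445, 1, 641017, 1], [1, 1, 5, 49, 1, 1, 1, 1, 51445, 1, 54821, 1],
   [1, 1, 1, 5, 941, 1, 1, 1, 17, 1, 24517, 1], [1, 1, 5, 49, 1, 1, 5, 1, 1, 2501, 1],
   [1, 1, 1, 5, 41, 1, 1, 122533085, 1, 625, 1], [1, 1, 5, 49, 1, 1, 5, 1, 1, 61, 1],
   [1, 1, 5, 49, 1, 1, 5, 1, 1, 41, 1], [1, 1, 1, 5, 41, 1, 1, 11259797, 1, 353, 877, 1],
   [1, 1, 5, 49, 1, 1, 1, 1, 17, 1, 185917, 1], [1, 1, 1, 5, 41, 1, 1, 24506617, 1, 1, 8105, 1],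
   [1, 1, 1, 5, 41, 1, 1, 166685, 1, 1, 850021, 1],
   [1, 1, 1, 5, 41, 1, 1, 1961, 1, 130477525, 1], [1, 1, 1, 5, 41, 1, 1, 62485, 1, 1, 37, 1],
   [1, 1, 1, 5, 41, 1, 1, 1961, 1, 5219101, 1], [1, 1, 1, 5, 41, 1, 1, 1, 364767577, 1],
   [1, 1, 1, 5, 41, 1, 97, 1, 1, 5, 1], [1, 1, 1, 5, 41, 1, 1, 9805, 1, 1, 5, 1],
   [1, 1, 1, 5, 41, 1, 97, 1], [1, 1, 1, 5, 41, 1, 1, 4505, 1, 1, 85, 1],
   [1, 1, 1, 5, 41, 1, 1, 4505, 1, 1, 17, 1], [1, 1, 1, 5, 41, 1, 5, 109, 5, 1],
   [1, 1, 1, 5, 41, 1, 1, 1961, 1, 25, 1], [1, 1, 1, 5, 41, 1, 1, 901, 1, 1, 36601, 1],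
   [1, 1, 1, 5, 41, 1, 1, 901, 1, 1, 17, 1], [1, 1, 1, 5, 41, 1, 1, 185, 1],
   [1, 1, 1, 5, 41, 1, 1, 5, 1, 1, 122052256177, 1], [1, 1, 1, 5, 41, 1, 1, 85, 1],
   [1, 1, 1, 5, 41, 1, 1, 17, 1, 41, 5, 1], [1, 1, 1, 5, 41, 1, 1, 5, 1, 1, 61761085, 1],
   [1, 1, 1, 5, 41, 1, 1, 5, 1, 1, 839885, 1], [1, 1, 1, 5, 41, 1, 1, 17, 1, 1, 5, 1],
   [1, 1, 1, 5, 41, 1, 1, 1, 1, 40265, 1], [1, 1, 1, 5, 41, 1, 1, 5, 1, 1, 4097, 1],
   [1, 1, 1, 5, 41, 1, 1, 5, 1, 1, 3485, 1], [1, 1, 1, 5, 41, 1, 1, 1, 5, 389, 5, 1],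
   [1, 1, 1, 5, 41, 1, 1, 5, 1, 1, 17, 1], [1, 1, 1, 1, 17, 1, 1, 1, 8974297, 1],
   [1, 1, 1, 1, 17, 1, 1, 1, 281, 1, 128617, 1], [1, 1, 1, 1, 17, 1, 1, 1, 281, 1, 40781, 1],
   [1, 1, 1, 1, 1, 1, 1, 254652989665, 1], [1, 1, 1, 1, 17, 1, 1, 1, 281, 1, 41, 1],
   [1, 1, 1, 1, 1, 1, 941, 21677, 1, 1, 14983285, 1],
   [1, 1, 1, 1, 1, 1, 941, 21677, 1, 1, 161485, 1],
   [1, 1, 1, 1, 17, 1, 1, 1, 1, 1, 1059719341, 1], [1, 1, 1, 1, 17, 1],
   [1, 1, 1, 1, 1, 1, 1, 223681, 1, 1, 17, 1], [1, 1, 1, 1, 1, 1, 1, 223681, 1],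
   [1, 1, 1, 1, 1, 1, 1, 1, 1, 54001, 1], [1, 1, 1, 1, 1, 1, 1, 1, 1, 5, 41, 1]]
  | true =>
  [[1, 1, 5, 49, 1, 13505, 1, 5, 469, 1, 185, 1],
   [1, 1, 5, 49, 1, 2701, 1, 1, 1, 745663614637, 1],
   [1, 1, 5, 49, 1, 2701, 1, 1, 1, 21504626677, 1], [1, 1, 1, 1, 1753, 697, 1, 2223146010137, 1],
   [1, 1, 5, 49, 1, 2701, 1, 1, 1, 7138141, 1], [1, 1, 5, 49, 1, 2701, 1, 1, 1, 6169001, 1],
   [1, 1, 5, 49, 1, 2701, 1, 1, 1, 4282937, 1], [1, 1, 5, 49, 1, 1, 567961, 1, 8727541, 1],
   [1, 1, 5, 49, 1, 2701, 1, 1, 1, 5021, 1], [1, 1, 5, 49, 1, 365, 1, 1, 38183941, 1],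
   [1, 1, 1, 1, 1753, 697, 1, 60085027301, 1], [1, 1, 5, 49, 1, 1, 2839805, 1, 1, 5, 1],
   [1, 1, 5, 49, 1, 365, 1, 1, 210961, 1, 25, 1], [1, 1, 5, 49, 1, 185, 1, 1885, 1, 601, 1],
   [1, 1, 5, 49, 1, 1, 567961, 1, 1, 577721, 1], [1, 1, 5, 49, 1, 365, 1, 1, 210961, 1],
   [1, 1, 5, 49, 1, 185, 1, 1885, 1, 1, 26641, 1], [1, 1, 5, 49, 1, 185, 1, 1885, 1, 1, 5, 1],
   [1, 1, 5, 49, 1, 185, 1, 1885, 1], [1, 1, 5, 49, 1, 1, 567961, 1, 25, 1, 5, 1],
   [1, 1, 5, 49, 1, 185, 1, 29, 1, 10339589, 1], [1, 1, 5, 49, 1, 1, 567961, 1, 25, 1],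
   [1, 1, 5, 49, 1, 185, 1, 29, 1, 267865, 1], [1, 1, 5, 49, 1, 185, 1, 29, 1, 163085, 1],
   [1, 1, 5, 49, 1, 1, 108385, 1, 181, 197, 1], [1, 1, 5, 49, 1, 185, 1, 65, 1, 1, 827285, 1],
   [1, 1, 5, 49, 1, 185, 1, 65, 1, 565, 1], [1, 1, 5, 49, 1, 1, 567961, 1],
   [1, 1, 1, 1, 1753, 697, 1, 214651541, 1], [1, 1, 5, 49, 1, 185, 1, 29, 1, 4121, 1],
   [1, 1, 5, 49, 1, 185, 1, 29, 1, 2509, 1], [1, 1, 5, 49, 1, 365, 1, 1, 181, 1],
   [1, 1, 5, 49, 1, 185, 1, 29, 1, 1585, 1], [1, 1, 5, 49, 1, 185, 1, 29, 1, 61, 125, 1],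
   [1, 1, 5, 49, 1, 185, 1, 29, 1, 169, 1], [1, 1, 5, 49, 1, 185, 1, 29, 1, 65, 1],
   [1, 1, 5, 49, 1, 185, 1, 65, 1], [1, 1, 5, 49, 1, 365, 1, 1, 1, 241, 1],
   [1, 1, 5, 49, 1, 1, 108385, 1, 1, 97, 1], [1, 1, 5, 49, 1, 365, 1, 1, 1, 17, 1],
   [1, 1, 1, 1, 1753, 697, 1, 4981717, 1, 37, 1], [1, 1, 5, 49, 1, 365, 1],
   [1, 1, 5, 49, 1, 1, 108385, 1], [1, 1, 5, 49, 1, 1, 21677, 1, 1, 222745, 1],
   [1, 1, 1, 1, 1753, 697, 1, 4981717, 1], [1, 1, 5, 49, 1, 73, 1, 5, 109, 1, 845, 1],
   [1, 1, 1, 1, 1753, 697, 1, 134641, 1, 2657, 1], [1, 1, 5, 49, 1, 185, 1],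
   [1, 1, 1, 1, 1753, 697, 1, 134641, 1], [1, 1, 1, 1, 1457, 9329, 1, 1, 1, 37, 1],
   [1, 1, 1, 1, 1457, 9329, 1, 1, 1, 1, 661, 1], [1, 1, 5, 49, 1, 1, 409, 1, 65, 62149, 1],
   [1, 1, 1, 1, 1753, 697, 1, 10357, 1], [1, 1, 5, 49, 1, 1, 409, 1, 97, 469, 1],
   [1, 1, 5, 49, 1, 1, 89, 17, 1, 1062925, 1], [1, 1, 1, 5, 941, 1, 1, 925, 2741, 1, 181, 1],
   [1, 1, 5, 49, 1, 1, 89, 17, 1, 725, 365801, 1], [1, 1, 1, 5, 941, 1, 1, 925, 2741, 1],
   [1, 1, 1, 1, 1753, 697, 1, 41, 121, 37, 1], [1, 1, 1, 1, 1753, 697, 1, 1, 708905, 1, 5, 1],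
   [1, 1, 5, 49, 1, 1, 89, 17, 1, 709, 5, 1], [1, 1, 1, 1, 1753, 697, 1, 481, 1],
   [1, 1, 1, 1, 1753, 697, 1, 1, 141781, 1], [1, 1, 5, 49, 1, 1, 89, 17, 1, 1, 47965, 1],
   [1, 1, 1, 1, 1753, 697, 1, 1, 122225, 1], [1, 1, 5, 49, 1, 1, 1, 478157, 1],
   [1, 1, 1, 5, 941, 1, 41, 1, 1, 97, 461, 1], [1, 1, 1, 1, 1753, 697, 1, 101, 5, 1, 5, 1],
   [1, 1, 5, 49, 1, 1, 89, 17, 1, 61, 1], [1, 1, 1, 1, 1753, 697, 1, 1, 725, 1, 25, 1],
   [1, 1, 1, 1, 1753, 697, 1, 37, 1], [1, 1, 1, 1, 1753, 697, 1, 1, 725, 1],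
   [1, 1, 1, 1, 1753, 697, 1, 1, 5, 1, 145, 1], [1, 1, 1, 1, 1753, 697, 1, 1, 5, 1, 5, 1],
   [1, 1, 1, 1, 1753, 697, 1, 1, 1, 1, 41, 1], [1, 1, 1, 5, 941, 1, 1, 5, 1, 557, 1],
   [1, 1, 5, 49, 1, 1, 1, 17, 701, 1], [1, 1, 1, 5, 941, 1, 1, 5, 1],
   [1, 1, 5, 49, 1, 1, 5, 1, 1, 305, 1], [1, 1, 5, 49, 1, 1, 5, 1, 1, 205, 1],
   [1, 1, 1, 5, 41, 1, 1, 122533085, 1, 85, 1], [1, 1, 5, 49, 1, 1, 1, 1, 1, 17066801, 1],
   [1, 1, 1, 5, 41, 1, 1, 11259797, 1, 917117, 1], [1, 1, 1, 5, 41, 1, 1, 122533085, 1, 25, 1],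
   [1, 1, 1, 5, 41, 1, 1, 122533085, 1, 17, 1], [1, 1, 5, 49, 1, 1, 5, 1, 1, 5, 1],
   [1, 1, 1, 5, 41, 1, 1, 56298985, 1, 5, 1], [1, 1, 1, 5, 41, 1, 1, 24506617, 1],
   [1, 1, 1, 5, 41, 1, 1, 11259797, 1], [1, 1, 1, 5, 41, 1, 1, 166685, 1, 16945, 1],
   [1, 1, 1, 5, 41, 1, 1, 1961, 1, 393477922685, 1], [1, 1, 1, 5, 41, 1, 1, 33337, 1, 321481, 1],
   [1, 1, 1, 5, 41, 1, 1, 9805, 1, 1538197, 1], [1, 1, 1, 5, 41, 1, 1, 1961, 1, 63404585, 1],
   [1, 1, 1, 5, 41, 1, 1, 9805, 1, 37517, 1], [1, 1, 1, 5, 41, 1, 1, 1961, 1, 12680917, 1],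
   [1, 1, 1, 5, 41, 1, 1, 33337, 1, 41, 1], [1, 1, 1, 5, 41, 1, 1, 1961, 1, 2186365, 1],
   [1, 1, 1, 5, 41, 1, 1, 1961, 1, 899845, 1], [1, 1, 1, 5, 41, 1, 1, 4505, 1, 157, 1],
   [1, 1, 1, 5, 41, 1, 1, 17, 1, 36782890297, 1], [1, 1, 1, 5, 41, 1, 1, 4505, 1],
   [1, 1, 1, 5, 41, 1, 1, 85, 1, 5, 601, 1], [1, 1, 1, 5, 41, 1, 1, 85, 1, 25, 1],
   [1, 1, 1, 5, 41, 1, 1, 5, 1, 1, 726601, 1], [1, 1, 1, 5, 41, 1, 1, 5, 1, 1, 9881, 1],
   [1, 1, 1, 5, 41, 1, 1, 1, 25, 89, 1], [1, 1, 1, 5, 41, 1, 1, 5, 1, 1, 241, 1],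
   [1, 1, 1, 1, 17, 1, 565, 109, 1, 8201174545, 1], [1, 1, 1, 1, 17, 1, 565, 109, 1, 7264105, 1],
   [1, 1, 1, 1, 17, 1, 565, 109, 1, 480505, 1], [1, 1, 1, 1, 17, 1, 565, 109, 1, 96101, 1],
   [1, 1, 1, 1, 17, 1, 565, 109, 1, 5645, 1], [1, 1, 1, 1, 17, 1, 565, 109, 1, 4369, 1],
   [1, 1, 1, 1, 1, 55, 41, 56635, 1, 5, 41, 1], [1, 1, 1, 1, 1, 55, 41, 56635, 1, 5, 1],
   [1, 1, 1, 1, 1, 745, 1, 41, 8305, 1], [1, 1, 1, 1, 1, 55, 41, 55, 1, 232217, 1],
   [1, 1, 1, 1, 1, 55, 41, 55, 1, 101, 1], [1, 1, 1, 1, 1, 55, 41, 55, 1],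
   [1, 1, 1, 1, 1, 1, 941, 21677, 1, 900737, 1], [1, 1, 1, 1, 1, 1, 941, 21677, 1, 1, 578521, 1],
   [1, 1, 1, 1, 1, 1, 941, 21677, 1, 1, 145, 1], [1, 1, 1, 1, 1, 1, 941, 21677, 1],
   [1, 1, 1, 1, 17, 1, 1, 1, 1, 17, 1], [1, 1, 1, 1, 1, 1, 1, 11, 601, 95, 1],
   [1, 1, 1, 1, 1, 1, 1, 1, 25, 14444789, 1], [1, 1, 1, 1, 1, 1, 1, 1, 5, 29, 412393, 1]]

/-- the solution of length `12` coded by `t` -/
private def sol (t : List ℕ) : List ℕ := ext (12 - t.length) (run 1 [] t)

private def inc (e : Bool) : ℕ → List (List ℕ) → Bool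
  | _, [] => true
  | p, t :: D => chk 12 e (sol t) && Nat.blt p (sol t).prod && inc e (sol t).prod D

private theorem inc_spec (e : Bool) : ∀ (D : List (List ℕ)) (p : ℕ), inc e p D = true →
    (∀ l ∈ D.map sol, (Pers l ∧ l.length = 12 ∧ cl l = e ∧
      toPt 13 (l.prod % 1025) = true) ∧ p < l.prod) ∧
      (D.map sol).Nodup := by
  intro D
  induction D with
  | nil => intro p _; exact ⟨by simp, by simp⟩
  | cons t D ih =>
    intro p h
    rw [inc, Bool.and_eq_true, Bool.and_eq_true] at h
    obtain ⟨⟨h1, h2⟩, h3⟩ := h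
    have h2' : p < (sol t).prod := by simpa using h2
    obtain ⟨i1, i2⟩ := ih _ h3
    constructor
    · intro l hl
      rw [List.map_cons, List.mem_cons] at hl
      rcases hl with rfl | hl
      · exact ⟨chk_spec h1, h2'⟩
      · exact ⟨(i1 l hl).1, h2'.trans (i1 l hl).2⟩
    · rw [List.map_cons, List.nodup_cons]
      refine ⟨fun hm => ?_, i2⟩
      exact lt_irrefl _ (i1 _ hm).2

private theorem data_chk : ∀ e : Bool, inc e 0 (data e) = true := by decide +kernel

private theorem data_len : ∀ e : Bool, (data e).length = 128 := by decide +kernel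

private theorem data_wgt : ∀ e : Bool, 128 * (50000 * 73 ^ 13) ≤
    (((data e).map sol).map (fun l => wt V 1723025 13 (l.prod % 1723025))).sum := by decide +kernel

private theorem start (e : Bool) : ∃ F : Finset (List ℕ), F.card = 128 ∧
    (128 * (50000 * 73 ^ 13) ≤ ∑ l ∈ F, wt V 1723025 13 (l.prod % 1723025)) ∧
    ∀ l ∈ F, Pers l ∧ l.length = 12 ∧ cl l = e ∧ toPt 13 (l.prod % 1025) = true := by
  obtain ⟨h1, h2⟩ := inc_spec e (data e) 0 (data_chk e)
  refine ⟨((data e).map sol).toFinset, ?_, ?_, fun l hl => (h1 l (List.mem_toFinset.mp hl)).1⟩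
  · rw [List.toFinset_card_of_nodup h2, List.length_map, data_len]
  · rw [List.sum_toFinset _ h2]
    exact data_wgt e

private theorem two_le : (2 : ℚ) ≤ lam ^ 25 := by unfold lam; norm_num

private theorem two_pow_le (T : ℕ) : (2 : ℚ) ^ (T / 25) ≤ lam ^ T := by
  calc (2 : ℚ) ^ (T / 25) ≤ (lam ^ 25) ^ (T / 25) := pow_le_pow_left₀ (by norm_num) two_le _
    _ = lam ^ (25 * (T / 25)) := by rw [← pow_mul]
    _ ≤ lam ^ T := pow_le_pow_right₀ one_le_lam (Nat.mul_div_le T 25)

private theorem two_each {l : List ℕ} {T : ℕ} (h : Pers l) (hp : toPt 13 (l.prod % 1025) = true)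
    (hT : 25 ≤ T) : Cnt l T 2 := by
  obtain ⟨k, hk, e25, e41⟩ := toPt_spec 13 l _ (Nat.mod_modEq _ _).symm hp
  obtain ⟨j, hj, hm⟩ := pt_iff e25 e41
  apply Cnt.late h (k := k) (by omega)
  refine (lin (T - k) _ j (h.keep k).1 hj hm).mono ?_
  have : 2 ≤ 1 + (T - k + 7) / 10 := by omega
  exact_mod_cast this

private theorem many (e : Bool) (T : ℕ) : ∃ G : Finset (List ℕ), 128 * 2 ^ (T / 25) ≤ G.card ∧
    ∀ w ∈ G, Pers w ∧ w.length = 12 + T ∧ cl w = e := by
  obtain ⟨F, f1, f2, f3⟩ := start e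
  by_cases hT : T < 36
  · by_cases hT1 : T < 25
    · obtain ⟨G, g1, g2⟩ := cnt_union (s := 12) (T := T) (e := e) F (fun _ => 1)
        (fun l hl => ⟨(f3 l hl).2.1, (f3 l hl).2.2.1, Cnt.one (f3 l hl).1 T⟩)
      refine ⟨G, ?_, g2⟩
      rw [Nat.div_eq_of_lt hT1, pow_zero, mul_one, ← f1]
      rw [sum_const, nsmul_eq_mul, mul_one] at g1
      exact_mod_cast g1
    · obtain ⟨G, g1, g2⟩ := cnt_union (s := 12) (T := T) (e := e) F (fun _ => 2)
        (fun l hl => ⟨(f3 l hl).2.1, (f3 l hl).2.2.1,
          two_each (f3 l hl).1 (f3 l hl).2.2.2 (by omega)⟩)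
      refine ⟨G, ?_, g2⟩
      rw [show T / 25 = 1 by omega, pow_one, ← f1]
      rw [sum_const, nsmul_eq_mul] at g1
      exact_mod_cast g1
  · obtain ⟨G, g1, g2⟩ := cnt_union (s := 12) (T := T) (e := e) F
      (fun l => (wt V 1723025 13 (l.prod % 1723025) : ℚ) / (50000 * 73 ^ 13) * lam ^ T)
      (fun l hl => ⟨(f3 l hl).2.1, (f3 l hl).2.2.1,
        wt_spec V 1723025 (T + 1) (fun l r T' hl' hlr h1 _ r25 r41 => expo T' l _ h1 hl'
          (by omega) (hlr.trans (by unfold Nat.ModEq; omega)))
          13 l _ T (f3 l hl).1 (by omega) (by omega) (Nat.mod_modEq _ _).symm⟩)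
    refine ⟨G, ?_, g2⟩
    have h1 : ∑ l ∈ F, (wt V 1723025 13 (l.prod % 1723025) : ℚ) / (50000 * 73 ^ 13) * lam ^ T =
        ((∑ l ∈ F, wt V 1723025 13 (l.prod % 1723025) : ℕ) : ℚ) / (50000 * 73 ^ 13) *
          lam ^ T := by
      rw [Nat.cast_sum, ← sum_mul, sum_div]
    rw [h1] at g1
    have h2 : ((128 : ℚ) * (50000 * 73 ^ 13)) ≤
        ((∑ l ∈ F, wt V 1723025 13 (l.prod % 1723025) : ℕ) : ℚ) := by exact_mod_cast f2
    have h3 : (128 : ℚ) ≤
        ((∑ l ∈ F, wt V 1723025 13 (l.prod % 1723025) : ℕ) : ℚ) / (50000 * 73 ^ 13) := by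
      rw [le_div_iff₀ (by norm_num)]
      exact h2
    have h4 : (128 : ℚ) * 2 ^ (T / 25) ≤ G.card :=
      (mul_le_mul h3 (two_pow_le T) (by positivity) (by positivity)).trans g1
    exact_mod_cast h4

private theorem half_le {l : List ℕ} (h : IsA l) (hl : 2 ≤ l.length) :
    ∀ x ∈ l, 2 * x ≤ l.prod := by
  rcases l with _ | ⟨a, t⟩
  · simp at hl
  rcases t with _ | ⟨b, t⟩
  · simp at hl
  have ha := h.2.1 a (by simp)
  have ht : 0 < (b :: t).prod := List.prod_pos (fun x hx => by
    have := h.2.1 x (List.mem_cons_of_mem _ hx); omega)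
  have hb : 2 ≤ (b :: t).prod := by
    have h1 := h.2.1 b (by simp)
    have h2 := Nat.le_of_dvd ht (List.dvd_prod (show b ∈ b :: t by simp))
    omega
  intro x hx
  rw [List.prod_cons]
  rcases List.mem_cons.mp hx with rfl | hx
  · nlinarith
  · have := Nat.le_of_dvd ht (List.dvd_prod hx)
    nlinarith

/-! ### From lists to tuples -/

private def tup (n : ℕ) (l : List ℕ) : Fin n → ℤ := fun j => ((l.reverse.getD j 0 : ℕ) : ℤ)

private theorem ofFn_tup {n : ℕ} {l : List ℕ} (h : l.length = n) :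
    List.ofFn (fun j : Fin n => l.reverse.getD j 0) = l.reverse := by
  apply List.ext_getElem
  · simp [h]
  · intro i h1 h2
    rw [List.getElem_ofFn, List.getD_eq_getElem _ _ h2]

private theorem tup_inj {n : ℕ} {l l' : List ℕ} (h : l.length = n) (h' : l'.length = n)
    (he : tup n l = tup n l') : l = l' := by
  have h1 : (fun j : Fin n => l.reverse.getD j 0) = fun j : Fin n => l'.reverse.getD j 0 := by
    funext j
    have := congrFun he j
    unfold tup at this
    exact_mod_cast this
  have h2 : l.reverse = l'.reverse := by rw [← ofFn_tup h, ← ofFn_tup h', h1]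
  exact List.reverse_injective h2

private theorem tup_mono {n : ℕ} {l : List ℕ} (h : l.length = n)
    (hp : l.Pairwise (fun a b => b < a)) : StrictMono (tup n l) := by
  intro i j hij
  unfold tup
  have hi : (i : ℕ) < l.reverse.length := by simp [h]
  have hj : (j : ℕ) < l.reverse.length := by simp [h]
  rw [List.getD_eq_getElem _ _ hi, List.getD_eq_getElem _ _ hj]
  have hr : l.reverse.Pairwise (fun a b => a < b) := List.pairwise_reverse.mpr hp
  exact_mod_cast List.pairwise_iff_getElem.mp hr i j hi hj hij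

private theorem tup_gt {n : ℕ} {l : List ℕ} (h : l.length = n) (h1 : ∀ x ∈ l, 1 < x) (j : Fin n) :
    1 < tup n l j := by
  unfold tup
  have hj : (j : ℕ) < l.reverse.length := by simp [h]
  rw [List.getD_eq_getElem _ _ hj]
  exact_mod_cast h1 _ (List.mem_reverse.mp (List.getElem_mem hj))

private theorem tup_sum {n : ℕ} {l : List ℕ} (h : l.length = n) :
    ∑ j, (1 : ℚ) / tup n l j = (l.map (fun x : ℕ => (1 : ℚ) / x)).sum := by
  have h1 : (l.map (fun x : ℕ => (1 : ℚ) / x)).sum
      = (l.reverse.map (fun x : ℕ => (1 : ℚ) / x)).sum := by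
    rw [List.map_reverse, List.sum_reverse]
  rw [h1, ← ofFn_tup h, List.map_ofFn, List.sum_ofFn]
  apply sum_congr rfl
  intro j _
  simp [tup]

private theorem tup_prod {n : ℕ} {l : List ℕ} (h : l.length = n) :
    ∏ j, (tup n l j : ℚ) = (l.prod : ℚ) := by
  have h1 : l.prod = l.reverse.prod := (List.prod_reverse l).symm
  rw [h1, ← ofFn_tup h, List.prod_ofFn, Nat.cast_prod]
  apply prod_congr rfl
  intro j _
  simp [tup]

/-! ### The sets of solutions as sets of lists -/

private def LA (n : ℕ) : Set (List ℕ) := {l | IsA l ∧ l.length = n}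

private def LB (n : ℕ) : Set (List ℕ) := {l | IsB l ∧ l.length = n}

private theorem exists_list {n : ℕ} {x : Fin n → ℤ} (hm : StrictMono x) (h1 : ∀ j, 1 < x j) :
    ∃ l : List ℕ, l.Pairwise (fun a b => b < a) ∧ (∀ a ∈ l, 1 < a) ∧ l.length = n ∧
      tup n l = x := by
  refine ⟨(List.ofFn (fun j => (x j).toNat)).reverse, ?_, ?_, by simp, ?_⟩
  · rw [List.pairwise_reverse, List.pairwise_ofFn]
    intro i j hij
    have a1 := hm hij
    have a2 := h1 i
    omega
  · intro a ha
    rw [List.mem_reverse, List.mem_ofFn] at ha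
    obtain ⟨j, rfl⟩ := ha
    have := h1 j
    omega
  · funext j
    unfold tup
    rw [List.reverse_reverse, List.getD_eq_getElem _ _ (by simp), List.getElem_ofFn]
    have := h1 j
    simp only [Fin.eta]
    omega

private theorem encard_A (n : ℕ) : (SolA n).encard = (LA n).encard := by
  have h : SolA n = tup n '' LA n := by
    ext x
    constructor
    · rintro ⟨h1, h2, h3⟩
      obtain ⟨l, a1, a2, a3, a4⟩ := exists_list h1 h2
      rw [← a4, tup_sum a3, tup_prod a3] at h3
      exact ⟨l, ⟨⟨a1, a2, h3⟩, a3⟩, a4⟩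
    · rintro ⟨l, ⟨h, hl⟩, rfl⟩
      refine ⟨tup_mono hl h.1, tup_gt hl h.2.1, ?_⟩
      rw [tup_sum hl, tup_prod hl]
      exact h.2.2
  rw [h]
  exact Set.InjOn.encard_image (fun l hl l' hl' he => tup_inj hl.2 hl'.2 he)

private theorem encard_B (n : ℕ) : (SolB n).encard = (LB n).encard := by
  have h : SolB n = tup n '' LB n := by
    ext x
    constructor
    · rintro ⟨h1, h2, h3⟩
      obtain ⟨l, a1, a2, a3, a4⟩ := exists_list h1 h2
      rw [← a4, tup_sum a3, tup_prod a3] at h3
      exact ⟨l, ⟨⟨a1, a2, h3⟩, a3⟩, a4⟩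
    · rintro ⟨l, ⟨h, hl⟩, rfl⟩
      refine ⟨tup_mono hl h.1, tup_gt hl h.2.1, ?_⟩
      rw [tup_sum hl, tup_prod hl]
      exact h.2.2
  rw [h]
  exact Set.InjOn.encard_image (fun l hl l' hl' he => tup_inj hl.2 hl'.2 he)

private theorem four_le {l : List ℕ} (h : IsA l) (hl : 2 ≤ l.length) : 4 ≤ l.prod := by
  have h1 := half_le h hl
  obtain ⟨x, hx⟩ : ∃ x, x ∈ l := List.exists_mem_of_length_pos (by omega)
  have h2 := h1 x hx
  have h3 := h.2.1 x hx
  omega

/-- Many persistent solutions of every length `m ≥ 12`, with a prescribed residue modulo `5`. -/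
private theorem many_res {m : ℕ} (hm : 12 ≤ m) (b : Bool) :
    ∃ G : Finset (List ℕ), 128 * 2 ^ ((m - 12) / 25) ≤ G.card ∧
      ∀ l ∈ G, IsA l ∧ 7 ≤ l.prod ∧ l.length = m ∧ l.prod % 5 = if b then 2 else 1 := by
  obtain ⟨G, g1, g2⟩ := many (b == (m % 2 == 0)) (m - 12)
  refine ⟨G, g1, fun l hl => ?_⟩
  obtain ⟨⟨a1, a2, a3⟩, a4, a5⟩ := g2 l hl
  rw [show 12 + (m - 12) = m by omega] at a4
  refine ⟨a1, a3, a4, ?_⟩
  unfold cl at a5
  rw [a4] at a5
  rcases a2 with h5 | h5 <;> rw [h5] at a5 ⊢ <;> revert a5 <;>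
    cases b <;> cases (m % 2 == 0) <;> decide

theorem result : ∀ n : ℕ, 13 ≤ n →
    (SolA n).encard + ((128 * 2 ^ ((n - 13) / 25) : ℕ) : ℕ∞) ≤ (SolA (n + 1)).encard ∧
    (SolA n).encard + (SolA (n - 1)).encard + ((128 * 2 ^ ((n - 13) / 25) : ℕ) : ℕ∞) ≤
      (SolB (n + 1)).encard := by
  classical
  intro n hn
  constructor
  · obtain ⟨G, g1, g2⟩ := many_res (m := n - 1) (by omega) true
    have hex : ∀ l ∈ G, ∃ y, 5 * y = l.prod * (l.prod + 5) + 1 := by
      intro l hl
      have h5 : l.prod % 5 = 2 := (g2 l hl).2.2.2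
      have : (l.prod * (l.prod + 5) + 1) % 5 = 0 := by
        rw [Nat.add_mod, Nat.mul_mod, Nat.add_mod l.prod 5, h5]
      exact ⟨(l.prod * (l.prod + 5) + 1) / 5, by omega⟩
    choose! y hy using hex
    have i1 : Set.InjOn (fun l : List ℕ => (l.prod + 1) :: l) (LA n) := by
      intro l _ l' _ he
      exact (List.cons.inj he).2
    have i2 : Set.InjOn (fun l : List ℕ => y l :: (l.prod + 5) :: l) (G : Set (List ℕ)) := by
      intro l _ l' _ he
      exact (List.cons.inj (List.cons.inj he).2).2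
    have hd : Disjoint ((fun l : List ℕ => (l.prod + 1) :: l) '' LA n)
        ((fun l : List ℕ => y l :: (l.prod + 5) :: l) '' (G : Set (List ℕ))) := by
      rw [Set.disjoint_left]
      rintro w ⟨l, _, rfl⟩ ⟨l', hl', he⟩
      obtain ⟨e1, e2⟩ := List.cons.inj he
      have e3 := hy l' hl'
      rw [← e2, List.prod_cons] at e1
      have := (g2 l' hl').2.1
      nlinarith
    calc (SolA n).encard + ((128 * 2 ^ ((n - 13) / 25) : ℕ) : ℕ∞)
        ≤ (LA n).encard + (G.card : ℕ∞) := by
          rw [encard_A]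
          gcongr
          rw [show n - 13 = n - 1 - 12 by omega]
          exact_mod_cast g1
      _ = ((fun l : List ℕ => (l.prod + 1) :: l) '' LA n ∪
          (fun l : List ℕ => y l :: (l.prod + 5) :: l) '' (G : Set (List ℕ))).encard := by
          rw [Set.encard_union_eq hd, i1.encard_image, i2.encard_image,
            Set.encard_coe_eq_coe_finsetCard]
      _ ≤ (SolA (n + 1)).encard := by
          rw [encard_A]
          apply Set.encard_le_encard
          rintro w (⟨l, ⟨h1, h2⟩, rfl⟩ | ⟨l, hl, rfl⟩)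
          · exact ⟨h1.cons, by simp [h2]⟩
          · obtain ⟨a1, a2, a3, _⟩ := g2 l hl
            exact ⟨a1.two (by omega) (hy l hl), by simp [a3]; omega⟩
  · obtain ⟨G, g1, g2⟩ := many_res (m := n - 1) (by omega) false
    have hex : ∀ l ∈ G, ∃ y, 5 * y + 1 = l.prod * (l.prod + 5) := by
      intro l hl
      have h5 : l.prod % 5 = 1 := (g2 l hl).2.2.2
      have : (l.prod * (l.prod + 5)) % 5 = 1 := by
        rw [Nat.mul_mod, Nat.add_mod l.prod 5, h5]
      exact ⟨(l.prod * (l.prod + 5)) / 5, by omega⟩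
    choose! y hy using hex
    have i1 : Set.InjOn (fun l : List ℕ => (l.prod - 1) :: l) (LA n) := by
      intro l _ l' _ he
      exact (List.cons.inj he).2
    have i2 : Set.InjOn (fun l : List ℕ => (2 * l.prod + 1) :: (2 * l.prod - 1) :: l)
        (LA (n - 1)) := by
      intro l _ l' _ he
      exact (List.cons.inj (List.cons.inj he).2).2
    have i3 : Set.InjOn (fun l : List ℕ => y l :: (l.prod + 5) :: l) (G : Set (List ℕ)) := by
      intro l _ l' _ he
      exact (List.cons.inj (List.cons.inj he).2).2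
    have hd : Disjoint ((fun l : List ℕ => (l.prod - 1) :: l) '' LA n)
        ((fun l : List ℕ => (2 * l.prod + 1) :: (2 * l.prod - 1) :: l) '' LA (n - 1)) := by
      rw [Set.disjoint_left]
      rintro w ⟨l, hl, rfl⟩ ⟨l', hl', he⟩
      obtain ⟨e1, e2⟩ := List.cons.inj he
      have h4 := four_le hl'.1 (by rw [hl'.2]; omega)
      have h4' := four_le hl.1 (by rw [hl.2]; omega)
      rw [← e2, List.prod_cons] at e1 h4'
      obtain ⟨q, hq⟩ : ∃ q, l'.prod = q + 4 := ⟨l'.prod - 4, by omega⟩
      rw [hq] at e1 h4'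
      have h6 : 2 * (q + 4) - 1 = 2 * q + 7 := by omega
      rw [h6] at e1 h4'
      have : (2 * q + 7) * (q + 4) = 2 * (q + 4) + 2 := by omega
      nlinarith
    have hd2 : Disjoint ((fun l : List ℕ => (l.prod - 1) :: l) '' LA n ∪
        (fun l : List ℕ => (2 * l.prod + 1) :: (2 * l.prod - 1) :: l) '' LA (n - 1))
        ((fun l : List ℕ => y l :: (l.prod + 5) :: l) '' (G : Set (List ℕ))) := by
      rw [Set.disjoint_left]
      rintro w (⟨l, hl, rfl⟩ | ⟨l, hl, rfl⟩) ⟨l', hl', he⟩
      · obtain ⟨e1, e2⟩ := List.cons.inj he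
        have e3 := hy l' hl'
        have h7 := (g2 l' hl').2.1
        rw [← e2, List.prod_cons] at e1
        have e4 : (l'.prod + 5) * l'.prod = y l' + 1 := by
          have : 0 < (l'.prod + 5) * l'.prod := by positivity
          omega
        nlinarith
      · obtain ⟨e1, e2⟩ := List.cons.inj he
        obtain ⟨e3, e4⟩ := List.cons.inj e2
        have h7 := (g2 l' hl').2.1
        rw [e4] at e3 h7
        omega
    calc (SolA n).encard + (SolA (n - 1)).encard + ((128 * 2 ^ ((n - 13) / 25) : ℕ) : ℕ∞)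
        ≤ (LA n).encard + (LA (n - 1)).encard + (G.card : ℕ∞) := by
          rw [encard_A, encard_A]
          gcongr
          rw [show n - 13 = n - 1 - 12 by omega]
          exact_mod_cast g1
      _ = ((fun l : List ℕ => (l.prod - 1) :: l) '' LA n ∪
          (fun l : List ℕ => (2 * l.prod + 1) :: (2 * l.prod - 1) :: l) '' LA (n - 1) ∪
          (fun l : List ℕ => y l :: (l.prod + 5) :: l) '' (G : Set (List ℕ))).encard := by
          rw [Set.encard_union_eq hd2, Set.encard_union_eq hd, i1.encard_image, i2.encard_image,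
            i3.encard_image, Set.encard_coe_eq_coe_finsetCard]
      _ ≤ (SolB (n + 1)).encard := by
          rw [encard_B]
          apply Set.encard_le_encard
          rintro w ((⟨l, ⟨h1, h2⟩, rfl⟩ | ⟨l, ⟨h1, h2⟩, rfl⟩) | ⟨l, hl, rfl⟩)
          · exact ⟨h1.oneB (four_le h1 (by omega)) (half_le h1 (by omega)), by simp [h2]⟩
          · exact ⟨h1.pairB (four_le h1 (by omega)), by simp [h2]; omega⟩
          · obtain ⟨a1, a2, a3, _⟩ := g2 l hl
            exact ⟨a1.twoB (by omega) (hy l hl), by simp [a3]; omega⟩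

end Pool.Agent.Results.MP_ab2933_nt.IncrementGrowth
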